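import Pool.Agent.H278.HD.L3a
import Mathlib.Analysis.SpecialFunctions.JapaneseBracket

set_option autoImplicit false

namespace Pool.Agent.H278.HD

open Complex MeasureTheory Set Filter Topology
open Pool.Agent.H466.HD
open Pool.Agent.H477.E (MT bc Nn)

theorem nrm1 (a b : ℝ) : ‖cexp (I * a * b)‖ = 1 := by
  rw [show I * (a : ℂ) * b = ((a * b : ℝ) : ℂ) * I by push_cast; ring]
  exact Complex.norm_exp_ofReal_mul_I _

theorem nrm2 (a b : ℝ) : ‖cexp (-(I * a * b))‖ = 1 := by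
  rw [show -(I * (a : ℂ) * b) = ((-(a * b) : ℝ) : ℂ) * I by push_cast; ring]
  exact Complex.norm_exp_ofReal_mul_I _

/-- `∏ |1 - q^{iv}|` -/
noncomputable def GG (j : ℕ) (v : ℝ) : ℝ := ∏ q ∈ j.primeFactors, ‖1 - cexp (I * v * (Real.log q : ℝ))‖

theorem GG_nonneg (j : ℕ) (v : ℝ) : 0 ≤ GG j v := Finset.prod_nonneg (fun _ _ => norm_nonneg _)

theorem GG_cont (j : ℕ) : Continuous (GG j) := by
  unfold GG
  refine continuous_finsetProd _ (fun q _ => ?_)
  fun_prop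

theorem GG_le (j : ℕ) (v : ℝ) : GG j v ≤ 2 ^ j.primeFactors.card := by
  unfold GG
  rw [← Finset.prod_const]
  refine Finset.prod_le_prod (fun _ _ => norm_nonneg _) (fun q _ => ?_)
  have h1 : ‖cexp (I * v * (Real.log q : ℝ))‖ = 1 := nrm1 v (Real.log q)
  calc ‖1 - cexp (I * v * (Real.log q : ℝ))‖ ≤ ‖(1 : ℂ)‖ + ‖cexp (I * v * (Real.log q : ℝ))‖ := norm_sub_le _ _
    _ = 2 := by rw [h1, norm_one]; norm_num

theorem int2 : Integrable (fun v : ℝ => 1 / (1 + |v|) ^ 2) := by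
  have h := integrable_one_add_norm (E := ℝ) (μ := volume) (r := 2) (by simp)
  refine h.congr (Filter.Eventually.of_forall (fun v => ?_))
  show (1 + ‖v‖) ^ (-2 : ℝ) = 1 / (1 + |v|) ^ 2
  rw [Real.norm_eq_abs, Real.rpow_neg (by positivity), one_div]
  norm_num

section bump

variable {β : ℝ → ℝ} {k : ℝ → ℂ} {C : ℝ}

theorem kbd2 (hb : Bump β k C) (v : ℝ) : ‖k v‖ * (1 + |v|) ^ 8 ≤ C * (1 / (1 + |v|) ^ 2) := by
  have h1 : (0 : ℝ) < 1 + |v| := by positivity
  have h2 := hb.kbd v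
  calc ‖k v‖ * (1 + |v|) ^ 8 ≤ C / (1 + |v|) ^ 10 * (1 + |v|) ^ 8 :=
        mul_le_mul_of_nonneg_right h2 (by positivity)
    _ = C * (1 / (1 + |v|) ^ 2) := by
        field_simp

theorem kint8 (hb : Bump β k C) : Integrable (fun v : ℝ => ‖k v‖ * (1 + |v|) ^ 8) := by
  refine Integrable.mono' (int2.const_mul C) ?_ (Filter.Eventually.of_forall (fun v => ?_))
  · have := hb.kcont
    exact (by fun_prop : Continuous (fun v : ℝ => ‖k v‖ * (1 + |v|) ^ 8)).aestronglyMeasurable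
  · rw [Real.norm_eq_abs, abs_of_nonneg (by positivity)]
    exact kbd2 hb v

theorem kint (hb : Bump β k C) : Integrable (fun v : ℝ => ‖k v‖) := by
  refine Integrable.mono' (kint8 hb) hb.kcont.norm.aestronglyMeasurable
    (Filter.Eventually.of_forall (fun v => ?_))
  rw [norm_norm]
  have h1 : (1 : ℝ) ≤ (1 + |v|) ^ 8 := one_le_pow₀ (by linarith [abs_nonneg v])
  nlinarith [norm_nonneg (k v)]

/-- integrability of `‖k‖` times a bounded continuous function -/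
theorem kmul (hb : Bump β k C) (g : ℝ → ℝ) (hg : Continuous g) (B : ℝ) (hB : ∀ v, |g v| ≤ B) :
    Integrable (fun v : ℝ => ‖k v‖ * g v) := by
  refine Integrable.mono' ((kint hb).mul_const B) ?_ (Filter.Eventually.of_forall (fun v => ?_))
  · have := hb.kcont
    exact (by fun_prop : Continuous (fun v : ℝ => ‖k v‖ * g v)).aestronglyMeasurable
  · rw [norm_mul, norm_norm, Real.norm_eq_abs]
    exact mul_le_mul_of_nonneg_left (hB v) (norm_nonneg _)

/-- the Cauchy-Schwarz inequality -/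
theorem cauchy (hb : Bump β k C) (g : ℝ → ℝ) (hg : Continuous g) (B : ℝ) (hB : ∀ v, |g v| ≤ B) :
    (∫ v, ‖k v‖ * g v) ^ 2 ≤ (∫ v, ‖k v‖) * ∫ v, ‖k v‖ * g v ^ 2 := by
  have hB0 : 0 ≤ B := (abs_nonneg _).trans (hB 0)
  have i1 := kmul hb g hg B hB
  have i2 : Integrable (fun v : ℝ => ‖k v‖ * g v ^ 2) :=
    kmul hb (fun v => g v ^ 2) (hg.pow 2) (B ^ 2) (fun v => by
      show |g v ^ 2| ≤ B ^ 2
      rw [abs_pow]
      exact pow_le_pow_left₀ (abs_nonneg _) (hB v) 2)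
  have i0 := kint hb
  have h1 : ∀ a : ℝ, 0 ≤ (∫ v, ‖k v‖) * (a * a) + (-2 * ∫ v, ‖k v‖ * g v) * a + ∫ v, ‖k v‖ * g v ^ 2 := by
    intro a
    have h2 : 0 ≤ ∫ v, ‖k v‖ * (g v - a) ^ 2 :=
      integral_nonneg (fun v => mul_nonneg (norm_nonneg _) (sq_nonneg _))
    have h3 : ∫ v, ‖k v‖ * (g v - a) ^ 2 =
        (∫ v, ‖k v‖) * (a * a) + (-2 * ∫ v, ‖k v‖ * g v) * a + ∫ v, ‖k v‖ * g v ^ 2 := by
      have e1 : (fun v => ‖k v‖ * (g v - a) ^ 2) =
          fun v => (‖k v‖ * (a * a) + (‖k v‖ * g v) * (-2 * a)) + ‖k v‖ * g v ^ 2 := by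
        funext v
        ring
      have j1 : Integrable (fun v : ℝ => ‖k v‖ * (a * a)) := i0.mul_const _
      have j2 : Integrable (fun v : ℝ => (‖k v‖ * g v) * (-2 * a)) := i1.mul_const _
      have j3 : Integrable (fun v : ℝ => ‖k v‖ * (a * a) + (‖k v‖ * g v) * (-2 * a)) := j1.add j2
      rw [e1, integral_add j3 i2, integral_add j1 j2, integral_mul_const, integral_mul_const]
      ring
    rw [h3] at h2
    exact h2
  have h4 := discrim_le_zero h1
  unfold discrim at h4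
  nlinarith [h4]

/-- the coefficients at small multiples of large primes are bounded by an integral -/
theorem cf_le (hb : Bump β k C) (θ L c w : ℝ) (hθ : 0 < θ) (hL : 0 < L) (hw : 0 < w) (p j : ℕ)
    (hp : p.Prime) (hj : j ≠ 0) (hjL : Real.log j ≤ θ * L) (hpL : 2 * θ * L < Real.log p) :
    ‖cf θ L β c w (p * j)‖ ≤ ∫ u : ℝ, ‖k u‖ * GG j (u / w) := by
  rw [cf_eq θ L β c w hθ hL p j hp hj hjL hpL]
  have hk : Integrable k := (integrable_norm_iff hb.kcont.aestronglyMeasurable).1 (kint hb)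
  have hterm : ∀ m : ℕ, Integrable (fun u : ℝ => ((ArithmeticFunction.moebius m : ℤ) : ℂ) *
      (k u * cexp (-(I * (((Real.log p + Real.log j - Real.log m - c) / w : ℝ) : ℂ) * u)))) := by
    intro m
    refine Integrable.const_mul ?_ _
    refine Integrable.mono' (kint hb) ?_ (Filter.Eventually.of_forall (fun u => ?_))
    · have := hb.kcont
      refine Continuous.aestronglyMeasurable ?_
      fun_prop
    · rw [norm_mul, nrm2, mul_one]
  have h1 : ∑ m ∈ j.divisors, ((ArithmeticFunction.moebius m : ℤ) : ℂ) *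
      (β ((Real.log p + Real.log j - Real.log m - c) / w) : ℂ) =
      ∫ u : ℝ, ∑ m ∈ j.divisors, ((ArithmeticFunction.moebius m : ℤ) : ℂ) *
        (k u * cexp (-(I * (((Real.log p + Real.log j - Real.log m - c) / w : ℝ) : ℂ) * u))) := by
    rw [integral_finsetSum _ (fun m _ => hterm m)]
    refine Finset.sum_congr rfl (fun m _ => ?_)
    rw [integral_const_mul, ← hb.inv]
  rw [h1]
  refine (norm_integral_le_integral_norm _).trans (le_of_eq ?_)
  refine integral_congr_ae (Filter.Eventually.of_forall (fun u => ?_))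
  show ‖∑ m ∈ j.divisors, ((ArithmeticFunction.moebius m : ℤ) : ℂ) *
        (k u * cexp (-(I * (((Real.log p + Real.log j - Real.log m - c) / w : ℝ) : ℂ) * u)))‖ =
      ‖k u‖ * GG j (u / w)
  have h2 : ∑ m ∈ j.divisors, ((ArithmeticFunction.moebius m : ℤ) : ℂ) *
        (k u * cexp (-(I * (((Real.log p + Real.log j - Real.log m - c) / w : ℝ) : ℂ) * u))) =
      (k u * cexp (-(I * (((Real.log p + Real.log j - c) / w : ℝ) : ℂ) * u))) *
        ∑ m ∈ j.divisors, ((ArithmeticFunction.moebius m : ℤ) : ℂ) *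
          cexp (I * ((u / w : ℝ) : ℂ) * (Real.log m : ℝ)) := by
    rw [Finset.mul_sum]
    refine Finset.sum_congr rfl (fun m _ => ?_)
    have h3 : cexp (-(I * (((Real.log p + Real.log j - Real.log m - c) / w : ℝ) : ℂ) * u)) =
        cexp (-(I * (((Real.log p + Real.log j - c) / w : ℝ) : ℂ) * u)) *
          cexp (I * ((u / w : ℝ) : ℂ) * (Real.log m : ℝ)) := by
      rw [← Complex.exp_add]
      congr 1
      push_cast
      have hwc : (w : ℂ) ≠ 0 := by exact_mod_cast hw.ne'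
      field_simp
      ring
    rw [h3]
    ring
  rw [h2, mob_prod (u / w) j hj, norm_mul, norm_mul, norm_prod]
  have h4 : ‖cexp (-(I * (((Real.log p + Real.log j - c) / w : ℝ) : ℂ) * u))‖ = 1 := nrm2 _ _
  rw [h4, mul_one]
  rfl

end bump

theorem l3 (h1 : S_EUL) (h2 : S_PR) : S_L3 := by
  intro β k C0 hb ε hε θ hθ hθ16
  obtain ⟨CE, hCE, hEUL⟩ := h1
  obtain ⟨⟨C1, hC1, hPR⟩, -⟩ := h2
  set A : ℝ := ∫ v, ‖k v‖ with hA
  set D : ℝ := ∫ v, ‖k v‖ * (1 + |v|) ^ 8 with hD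
  have hA0 : 0 ≤ A := integral_nonneg (fun v => norm_nonneg _)
  have hD0 : 0 ≤ D := integral_nonneg (fun v => by positivity)
  set S1 : ℝ := 4 * C1 * Real.exp 1 with hS1
  have hS10 : 0 < S1 := by positivity
  set E : ℝ := 1 / ε ^ 2 + 1 / ε ^ 8 with hE
  have hE0 : 0 < E := by positivity
  refine ⟨S1 ^ 2 * A * (CE * E * D) + 1, Real.exp 4 + 10, by positivity,
    by linarith [Real.exp_pos 4], ?_⟩
  intro T c w w0 N hT hBd hw0 hw01 hw0L hN
  set L : ℝ := Real.log T with hL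
  have hTpos : 0 < T := by linarith [Real.exp_pos 4]
  have hL4 : 4 ≤ L := by
    rw [hL, Real.le_log_iff_exp_le hTpos]
    linarith
  have hLpos : 0 < L := by linarith
  have hw : 0 < w := lt_of_lt_of_le (by positivity) hBd.w1
  have hcw1 : 1 ≤ c - w := by linarith [hBd.lo]
  have hwL : w ≤ L := by nlinarith [hBd.lo, hBd.hi]
  -- the sum over the primes
  have hsum : ∑ p ∈ Pb c w, 1 / (p : ℝ) ≤ S1 := by
    have h3 := hPR (c - w) (1 / L) c ⌊Real.exp (c + w)⌋₊ hcw1 (by positivity)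
      (by rw [div_le_one hLpos]; linarith)
    have h4 : ∑ p ∈ Pb c w, Real.exp (-1) * (1 / (p : ℝ)) ≤ C1 / (1 / L * (c - w)) := by
      refine le_trans (Finset.sum_le_sum (fun p hp => ?_)) h3
      unfold Pb at hp
      rw [Finset.mem_filter, Finset.mem_Icc] at hp
      obtain ⟨⟨hp1, hp2⟩, hpp, hp3⟩ := hp
      have hppos : (0 : ℝ) < p := by exact_mod_cast hpp.pos
      have hp4 : Real.log p ≤ c + w := by
        rw [Real.log_le_iff_le_exp hppos]
        exact (Nat.le_floor_iff (Real.exp_pos _).le).1 hp2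
      have h5 : (c - Real.log p) ^ 2 ≤ L ^ 2 := by
        have : |c - Real.log p| ≤ L := by
          rw [abs_le]
          constructor <;> linarith
        calc (c - Real.log p) ^ 2 = |c - Real.log p| ^ 2 := (sq_abs _).symm
          _ ≤ L ^ 2 := pow_le_pow_left₀ (abs_nonneg _) this 2
      have h6 : (1 / L) ^ 2 * (c - Real.log p) ^ 2 ≤ 1 := by
        rw [div_pow, one_pow, one_div, inv_mul_le_iff₀ (by positivity), mul_one]
        exact h5
      have h7 : Real.exp (-1) ≤ Real.exp (-((1 / L) ^ 2 * (c - Real.log p) ^ 2)) :=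
        Real.exp_le_exp.2 (by linarith)
      rw [mul_one_div]
      exact div_le_div_of_nonneg_right h7 hppos.le
    rw [← Finset.mul_sum] at h4
    have h8 : C1 / (1 / L * (c - w)) ≤ 4 * C1 := by
      rw [div_le_iff₀ (by positivity)]
      have : (1 : ℝ) / 4 ≤ 1 / L * (c - w) := by
        rw [one_div_mul_eq_div, le_div_iff₀ hLpos]
        linarith [hBd.lo]
      nlinarith
    have h9 : ∑ p ∈ Pb c w, 1 / (p : ℝ) = Real.exp 1 * (Real.exp (-1) * ∑ p ∈ Pb c w, 1 / (p : ℝ)) := by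
      rw [← mul_assoc, ← Real.exp_add]
      norm_num
    rw [h9, hS1, mul_comm (4 * C1)]
    exact mul_le_mul_of_nonneg_left (h4.trans h8) (Real.exp_pos _).le
  -- the bound for the individual terms
  set Gj : ℕ → ℝ := fun j => ∫ u : ℝ, ‖k u‖ * GG j (u / w) with hGj
  have hterm : ∀ j ∈ Finset.Icc 2 N, ‖hf θ L β c w j‖ ≤ S1 * Gj j := by
    intro j hj
    rw [Finset.mem_Icc] at hj
    have hj0 : j ≠ 0 := by omega
    have hjpos : (0 : ℝ) < j := by exact_mod_cast Nat.pos_of_ne_zero hj0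
    have hjL : Real.log j ≤ θ * L := by
      rw [Real.log_le_iff_le_exp hjpos]
      exact le_trans (by exact_mod_cast hj.2) hN
    have hG0 : 0 ≤ Gj j := integral_nonneg (fun u => mul_nonneg (norm_nonneg _) (GG_nonneg _ _))
    unfold hf
    refine (norm_sum_le _ _).trans ?_
    calc ∑ p ∈ Pb c w, ‖(β ((Real.log p - c) / w) : ℂ) / p * cf θ L β c w (p * j)‖
        ≤ ∑ p ∈ Pb c w, 1 / (p : ℝ) * Gj j := by
          refine Finset.sum_le_sum (fun p hp => ?_)
          unfold Pb at hp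
          rw [Finset.mem_filter, Finset.mem_Icc] at hp
          obtain ⟨⟨hp1, hp2⟩, hpp, hp3⟩ := hp
          have hppos : (0 : ℝ) < p := by exact_mod_cast hpp.pos
          rw [norm_mul]
          refine mul_le_mul ?_ ?_ (norm_nonneg _) (by positivity)
          · rw [norm_div, Complex.norm_real, Complex.norm_natCast, Real.norm_eq_abs,
              abs_of_nonneg (hb.nonneg _)]
            exact div_le_div_of_nonneg_right (hb.le_one _) hppos.le
          · refine cf_le hb θ L c w hθ hLpos hw p j hpp hj0 hjL ?_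
            have : θ * L ≤ 1 / 16 * L := mul_le_mul_of_nonneg_right hθ16 hLpos.le
            nlinarith [hBd.lo]
      _ = (∑ p ∈ Pb c w, 1 / (p : ℝ)) * Gj j := by rw [Finset.sum_mul]
      _ ≤ S1 * Gj j := mul_le_mul_of_nonneg_right hsum hG0
  -- Cauchy-Schwarz
  have hGc : ∀ j : ℕ, Continuous (fun u : ℝ => GG j (u / w)) := fun j =>
    (GG_cont j).comp (continuous_id.div_const w)
  have hGb : ∀ (j : ℕ) (u : ℝ), |GG j (u / w)| ≤ 2 ^ j.primeFactors.card := fun j u => by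
    rw [abs_of_nonneg (GG_nonneg _ _)]
    exact GG_le _ _
  have hCS : ∀ j : ℕ, Gj j ^ 2 ≤ A * ∫ u : ℝ, ‖k u‖ * GG j (u / w) ^ 2 := fun j =>
    cauchy hb (fun u => GG j (u / w)) (hGc j) _ (hGb j)
  have hjr : ∀ j ∈ Finset.Icc 2 N, (0 : ℝ) < (j : ℝ) ^ (1 + 2 * w0) := by
    intro j hj
    rw [Finset.mem_Icc] at hj
    exact Real.rpow_pos_of_pos (by exact_mod_cast (by omega : 0 < j)) _
  have hsq : ∀ j : ℕ, Integrable (fun u : ℝ => ‖k u‖ * GG j (u / w) ^ 2) := fun j =>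
    kmul hb (fun u => GG j (u / w) ^ 2) ((hGc j).pow 2) ((2 ^ j.primeFactors.card) ^ 2) (fun u => by
      show |GG j (u / w) ^ 2| ≤ _
      rw [abs_pow]
      exact pow_le_pow_left₀ (abs_nonneg _) (hGb j u) 2)
  -- the sum over `j`
  have hstep1 : ∑ j ∈ Finset.Icc 2 N, ‖hf θ L β c w j‖ ^ 2 / (j : ℝ) ^ (1 + 2 * w0) ≤
      S1 ^ 2 * A * ∑ j ∈ Finset.Icc 2 N, (∫ u : ℝ, ‖k u‖ * GG j (u / w) ^ 2) / (j : ℝ) ^ (1 + 2 * w0) := by
    rw [Finset.mul_sum]
    refine Finset.sum_le_sum (fun j hj => ?_)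
    rw [← mul_div_assoc]
    refine div_le_div_of_nonneg_right ?_ (hjr j hj).le
    calc ‖hf θ L β c w j‖ ^ 2 ≤ (S1 * Gj j) ^ 2 := pow_le_pow_left₀ (norm_nonneg _) (hterm j hj) 2
      _ = S1 ^ 2 * Gj j ^ 2 := by ring
      _ ≤ S1 ^ 2 * (A * ∫ u : ℝ, ‖k u‖ * GG j (u / w) ^ 2) :=
        mul_le_mul_of_nonneg_left (hCS j) (by positivity)
      _ = S1 ^ 2 * A * ∫ u : ℝ, ‖k u‖ * GG j (u / w) ^ 2 := by ring
  set a : ℝ := 1 / (w * w0) with ha
  have ha0 : 0 < a := by positivity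
  have hstep2 : ∑ j ∈ Finset.Icc 2 N, (∫ u : ℝ, ‖k u‖ * GG j (u / w) ^ 2) / (j : ℝ) ^ (1 + 2 * w0) ≤
      CE * (a ^ 2 + a ^ 8) * D := by
    have e1 : ∑ j ∈ Finset.Icc 2 N, (∫ u : ℝ, ‖k u‖ * GG j (u / w) ^ 2) / (j : ℝ) ^ (1 + 2 * w0) =
        ∫ u : ℝ, ∑ j ∈ Finset.Icc 2 N, (‖k u‖ * GG j (u / w) ^ 2) / (j : ℝ) ^ (1 + 2 * w0) := by
      rw [integral_finsetSum _ (fun j _ => (hsq j).div_const _)]
      refine Finset.sum_congr rfl (fun j _ => ?_)
      rw [integral_div]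
    rw [e1, hD, ← integral_const_mul]
    refine integral_mono (integrable_finsetSum _ (fun j _ => (hsq j).div_const _))
      ((kint8 hb).const_mul _) (fun u => ?_)
    show ∑ j ∈ Finset.Icc 2 N, (‖k u‖ * GG j (u / w) ^ 2) / (j : ℝ) ^ (1 + 2 * w0) ≤
      CE * (a ^ 2 + a ^ 8) * (‖k u‖ * (1 + |u|) ^ 8)
    have e2 : ∑ j ∈ Finset.Icc 2 N, (‖k u‖ * GG j (u / w) ^ 2) / (j : ℝ) ^ (1 + 2 * w0) =
        ‖k u‖ * ∑ j ∈ Finset.Icc 2 N, (∏ p ∈ j.primeFactors,
          ‖1 - cexp (I * ((u / w : ℝ) : ℂ) * Real.log p)‖ ^ 2) / (j : ℝ) ^ (1 + 2 * w0) := by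
      rw [Finset.mul_sum]
      refine Finset.sum_congr rfl (fun j _ => ?_)
      rw [mul_div_assoc]
      congr 2
      unfold GG
      rw [Finset.prod_pow]
    rw [e2]
    have e3 := hEUL w0 (u / w) N hw0 hw01
    have e4 : |u / w| / w0 = |u| * a := by
      rw [abs_div, abs_of_pos hw, ha]
      field_simp
    rw [e4] at e3
    have e5 : (|u| * a) ^ 2 + (|u| * a) ^ 8 ≤ (a ^ 2 + a ^ 8) * (1 + |u|) ^ 8 := by
      have f1 : |u| ^ 2 ≤ (1 + |u|) ^ 8 := by
        calc |u| ^ 2 ≤ (1 + |u|) ^ 2 := pow_le_pow_left₀ (abs_nonneg _) (by linarith) 2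
          _ ≤ (1 + |u|) ^ 8 := pow_le_pow_right₀ (by linarith [abs_nonneg u]) (by norm_num)
      have f2 : |u| ^ 8 ≤ (1 + |u|) ^ 8 := pow_le_pow_left₀ (abs_nonneg _) (by linarith) 8
      calc (|u| * a) ^ 2 + (|u| * a) ^ 8 = a ^ 2 * |u| ^ 2 + a ^ 8 * |u| ^ 8 := by ring
        _ ≤ a ^ 2 * (1 + |u|) ^ 8 + a ^ 8 * (1 + |u|) ^ 8 :=
          add_le_add (mul_le_mul_of_nonneg_left f1 (by positivity))
            (mul_le_mul_of_nonneg_left f2 (by positivity))
        _ = _ := by ring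
    calc ‖k u‖ * ∑ j ∈ Finset.Icc 2 N, (∏ p ∈ j.primeFactors,
          ‖1 - cexp (I * ((u / w : ℝ) : ℂ) * Real.log p)‖ ^ 2) / (j : ℝ) ^ (1 + 2 * w0)
        ≤ ‖k u‖ * (CE * ((|u| * a) ^ 2 + (|u| * a) ^ 8)) :=
          mul_le_mul_of_nonneg_left e3 (norm_nonneg _)
      _ ≤ ‖k u‖ * (CE * ((a ^ 2 + a ^ 8) * (1 + |u|) ^ 8)) :=
          mul_le_mul_of_nonneg_left (mul_le_mul_of_nonneg_left e5 hCE.le) (norm_nonneg _)
      _ = _ := by ring
  -- the size of `a`
  have hy0 : 0 < w0 * L := by positivity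
  have hale : a ≤ 1 / (ε * (w0 * L)) := by
    rw [ha]
    refine one_div_le_one_div_of_le (by positivity) ?_
    have := mul_le_mul_of_nonneg_right hBd.w1 hw0.le
    nlinarith
  have ha2 : a ^ 2 + a ^ 8 ≤ E / (w0 * L) ^ 2 := by
    have g1 : a ^ 2 ≤ (1 / (ε * (w0 * L))) ^ 2 := pow_le_pow_left₀ ha0.le hale 2
    have g2 : a ^ 8 ≤ (1 / (ε * (w0 * L))) ^ 8 := pow_le_pow_left₀ ha0.le hale 8
    have g3 : (1 / (ε * (w0 * L))) ^ 2 = 1 / ε ^ 2 / (w0 * L) ^ 2 := by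
      rw [one_div_pow, mul_pow, div_div]
    have g4 : (1 / (ε * (w0 * L))) ^ 8 ≤ 1 / ε ^ 8 / (w0 * L) ^ 2 := by
      rw [one_div_pow, mul_pow, div_div]
      refine one_div_le_one_div_of_le (by positivity) ?_
      refine mul_le_mul_of_nonneg_left ?_ (by positivity)
      exact pow_le_pow_right₀ hw0L (by norm_num)
    rw [hE, add_div]
    linarith
  have hfin : S1 ^ 2 * A * (CE * (a ^ 2 + a ^ 8) * D) ≤
      (S1 ^ 2 * A * (CE * E * D) + 1) / (w0 * L) ^ 2 := by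
    have g5 : S1 ^ 2 * A * (CE * (a ^ 2 + a ^ 8) * D) ≤
        S1 ^ 2 * A * (CE * (E / (w0 * L) ^ 2) * D) := by
      refine mul_le_mul_of_nonneg_left ?_ (by positivity)
      exact mul_le_mul_of_nonneg_right (mul_le_mul_of_nonneg_left ha2 hCE.le) hD0
    refine g5.trans ?_
    rw [add_div (S1 ^ 2 * A * (CE * E * D)) 1 ((w0 * L) ^ 2)]
    have g6 : S1 ^ 2 * A * (CE * (E / (w0 * L) ^ 2) * D) = S1 ^ 2 * A * (CE * E * D) / (w0 * L) ^ 2 := by
      ring
    rw [g6]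
    have : (0 : ℝ) ≤ 1 / (w0 * L) ^ 2 := by positivity
    linarith
  exact (hstep1.trans (mul_le_mul_of_nonneg_left hstep2 (by positivity))).trans hfin

end Pool.Agent.H278.HD
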