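import Pool.Agent.H466.HD.SA

set_option autoImplicit false

namespace Pool.Agent.H278.HD

open Complex MeasureTheory Set Filter Topology
open Pool.Agent.H466.HD
open Pool.Agent.H477.E (MT bc Nn)

/-- the completely multiplicative function `n ↦ n ^ (i v)` -/
noncomputable def fv (v : ℝ) : ArithmeticFunction ℂ :=
  ⟨fun n => if n = 0 then 0 else cexp (I * v * (Real.log n : ℝ)), by simp⟩

theorem fv_apply (v : ℝ) {n : ℕ} (hn : n ≠ 0) : fv v n = cexp (I * v * (Real.log n : ℝ)) := by
  show (if n = 0 then 0 else cexp (I * v * (Real.log n : ℝ))) = _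
  rw [if_neg hn]

theorem fv_mult (v : ℝ) : (fv v).IsMultiplicative := by
  constructor
  · rw [fv_apply v one_ne_zero]
    simp
  · intro m n _
    by_cases hm : m = 0
    · subst hm
      rw [zero_mul, ArithmeticFunction.map_zero, zero_mul]
    by_cases hn : n = 0
    · subst hn
      rw [mul_zero, ArithmeticFunction.map_zero, mul_zero]
    rw [fv_apply v hm, fv_apply v hn, fv_apply v (mul_ne_zero hm hn), ← Complex.exp_add]
    congr 1
    rw [Nat.cast_mul, Real.log_mul (by exact_mod_cast hm) (by exact_mod_cast hn)]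
    push_cast
    ring

/-- the Möbius sum is a product -/
theorem mob_prod (v : ℝ) (j : ℕ) (hj : j ≠ 0) :
    ∑ m ∈ j.divisors, ((ArithmeticFunction.moebius m : ℤ) : ℂ) * cexp (I * v * (Real.log m : ℝ)) =
      ∏ q ∈ j.primeFactors, (1 - cexp (I * v * (Real.log q : ℝ))) := by
  set r := ∏ p ∈ j.primeFactors, p with hr
  have hrd : r ∣ j := Nat.prod_primeFactors_dvd j
  have hr0 : r ≠ 0 := fun h => hj (by
    rw [h] at hrd
    exact Nat.eq_zero_of_zero_dvd hrd)
  have hrsq : Squarefree r := by
    refine Finset.squarefree_prod_of_pairwise_isCoprime (fun p hp q hq hpq => ?_) (fun p hp => ?_)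
    · exact Nat.coprime_iff_isRelPrime.1
        ((Nat.coprime_primes (Nat.prime_of_mem_primeFactors hp) (Nat.prime_of_mem_primeFactors hq)).2 hpq)
    · exact (Nat.prime_of_mem_primeFactors hp).squarefree
  have hrp : r.primeFactors = j.primeFactors :=
    Nat.primeFactors_prod (fun p hp => Nat.prime_of_mem_primeFactors hp)
  have h1 := ArithmeticFunction.IsMultiplicative.prodPrimeFactors_one_sub_of_squarefree (fv v)
    (fv_mult v) hrsq
  rw [hrp] at h1
  have h2 : ∏ q ∈ j.primeFactors, (1 - cexp (I * v * (Real.log q : ℝ))) =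
      ∏ p ∈ j.primeFactors, (1 - fv v p) := by
    refine Finset.prod_congr rfl (fun p hp => ?_)
    rw [fv_apply v (Nat.prime_of_mem_primeFactors hp).ne_zero]
  rw [h2, h1]
  symm
  have h3 : ∑ d ∈ r.divisors, ((ArithmeticFunction.moebius d : ℤ) : ℂ) * fv v d =
      ∑ d ∈ j.divisors, ((ArithmeticFunction.moebius d : ℤ) : ℂ) * fv v d := by
    refine Finset.sum_subset (Nat.divisors_subset_of_dvd hj hrd) (fun d hd hd' => ?_)
    have hdj := Nat.dvd_of_mem_divisors hd
    have hns : ¬ Squarefree d := by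
      intro hs
      apply hd'
      rw [Nat.mem_divisors]
      refine ⟨?_, hr0⟩
      rw [← Nat.prod_primeFactors_of_squarefree hs]
      exact Finset.prod_dvd_prod_of_subset _ _ _ (Nat.primeFactors_mono hdj hj)
    rw [ArithmeticFunction.moebius_eq_zero_of_not_squarefree hns]
    simp
  rw [h3]
  refine Finset.sum_congr rfl (fun d hd => ?_)
  rw [fv_apply v (Nat.pos_of_mem_divisors hd).ne']

/-- the coefficients at small multiples of large primes -/
theorem cf_eq (θ L : ℝ) (β : ℝ → ℝ) (c w : ℝ) (hθ : 0 < θ) (hL : 0 < L) (p j : ℕ)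
    (hp : p.Prime) (hj : j ≠ 0) (hjL : Real.log j ≤ θ * L) (hpL : 2 * θ * L < Real.log p) :
    cf θ L β c w (p * j) = ∑ m ∈ j.divisors, ((ArithmeticFunction.moebius m : ℤ) : ℂ) *
      (β ((Real.log p + Real.log j - Real.log m - c) / w) : ℂ) := by
  have hc0 : 0 < θ * L / 5 := by positivity
  have hpj : p * j ≠ 0 := mul_ne_zero hp.ne_zero hj
  have hpos : (0 : ℝ) < p := by exact_mod_cast hp.pos
  have hjpos : (0 : ℝ) < j := by exact_mod_cast Nat.pos_of_ne_zero hj
  unfold cf
  have hsub : j.divisors ⊆ (p * j).divisors :=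
    Nat.divisors_subset_of_dvd hpj (Dvd.intro_left p rfl)
  rw [← Finset.sum_subset hsub]
  · refine Finset.sum_congr rfl (fun m hm => ?_)
    have hm0 := Nat.pos_of_mem_divisors hm
    have hmj : m ≤ j := Nat.divisor_le hm
    have hm0' : (0 : ℝ) < m := by exact_mod_cast hm0
    have hlm : Real.log m ≤ Real.log j := Real.log_le_log hm0' (by exact_mod_cast hmj)
    have h1 : bc θ L 0 m = ((ArithmeticFunction.moebius m : ℤ) : ℂ) := by
      unfold Pool.Agent.H477.E.bc
      rw [Pool.Agent.H448R2.GC.cu_one 5 (θ * L / 5) (Real.log m - θ * L) hc0 (by linarith)]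
      simp
    have h2 : Real.log (((p * j : ℕ) : ℝ) / (m : ℝ)) = Real.log p + Real.log j - Real.log m := by
      rw [Nat.cast_mul, Real.log_div (by positivity) (by positivity),
        Real.log_mul (by positivity) (by positivity)]
    rw [h1, h2]
  · intro m hm hm'
    have hm0 := Nat.pos_of_mem_divisors hm
    have hm0' : (0 : ℝ) < m := by exact_mod_cast hm0
    have hdvd := Nat.dvd_of_mem_divisors hm
    have hpm : p ∣ m := by
      by_contra h
      apply hm'
      rw [Nat.mem_divisors]
      exact ⟨((Nat.Prime.coprime_iff_not_dvd hp).2 h).symm.dvd_of_dvd_mul_left hdvd, hj⟩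
    have hple : p ≤ m := Nat.le_of_dvd hm0 hpm
    have hlog : Real.log p ≤ Real.log m := Real.log_le_log hpos (by exact_mod_cast hple)
    have h1 : bc θ L 0 m = 0 := by
      unfold Pool.Agent.H477.E.bc
      rw [Pool.Agent.H448R2.GC.cu_zero 5 (θ * L / 5) (Real.log m - θ * L) hc0 (by
        push_cast
        linarith)]
      simp
    rw [h1, zero_mul]

end Pool.Agent.H278.HD
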